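import Mathlib
import Pool.Agent.Work.MP_3119c3_an.Defs
import Pool.Agent.Work.MP_3119c3_an.Gen3

set_option autoImplicit false

open MeasureTheory AddCircle Pool.Agent.Work.MP_3119c3_an
open scoped ENNReal ComplexConjugate

namespace Pool.Agent.Results.MP_3119c3_an.NotEveryMatrixIsAC

/-- For every `n ≥ 3` there is an irreducible complex symmetric `n × n` matrix which is unitarily
equivalent to a truncated Toeplitz operator but is not the matrix of any truncated Toeplitz
operator with respect to a modified Aleksandrov-Clark basis. -/
theorem result : ∀ n : ℕ, 3 ≤ n → ∃ M : Matrix (Fin n) (Fin n) ℂ,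
    M.IsSymm ∧ IsIrreducible M ∧ IsUnitarilyEquivalentToTTO M ∧ ¬ IsModifiedACMatrix M :=
  fun _ hn => large hn

end Pool.Agent.Results.MP_3119c3_an.NotEveryMatrixIsAC
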